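import Mathlib

set_option autoImplicit false

namespace Pool.Agent.H75.QT

open DirichletCharacter

/-- A character of modulus `m * n`, with `m`, `n` coprime, is the product of a character
of modulus `m` and one of modulus `n`. -/
theorem split_aux {m n : ℕ} (h : m.Coprime n) (χ : DirichletCharacter ℂ (m * n)) :
    ∃ (χ₁ : DirichletCharacter ℂ m) (χ₂ : DirichletCharacter ℂ n),
      (∀ x : ℕ, χ (x : ZMod (m * n)) = χ₁ (x : ZMod m) * χ₂ (x : ZMod n)) ∧
      (∀ D : ℕ, χ ^ D = 1 → χ₁ ^ D = 1 ∧ χ₂ ^ D = 1) := by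
  classical
  let e : (ZMod (m * n))ˣ ≃* (ZMod m)ˣ × (ZMod n)ˣ :=
    (Units.mapEquiv (ZMod.chineseRemainder h).toMulEquiv).trans MulEquiv.prodUnits
  let f₁ : (ZMod m)ˣ →* ℂˣ :=
    χ.toUnitHom.comp (e.symm.toMonoidHom.comp (MonoidHom.inl (ZMod m)ˣ (ZMod n)ˣ))
  let f₂ : (ZMod n)ˣ →* ℂˣ :=
    χ.toUnitHom.comp (e.symm.toMonoidHom.comp (MonoidHom.inr (ZMod m)ˣ (ZMod n)ˣ))
  have hD : ∀ (k : ℕ) (g : (ZMod k)ˣ →* ℂˣ) (D : ℕ), (∀ a, g a ^ D = 1) →
      (MulChar.ofUnitHom g) ^ D = 1 := by
    intro k g D hg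
    apply MulChar.ext
    intro a
    rw [MulChar.pow_apply_coe, MulChar.ofUnitHom_coe, MulChar.one_apply_coe]
    have := hg a
    have h2 : ((g a ^ D : ℂˣ) : ℂ) = 1 := by rw [this]; simp
    simpa using h2
  have hχD : ∀ D : ℕ, χ ^ D = 1 → ∀ u : (ZMod (m * n))ˣ, χ.toUnitHom u ^ D = 1 := by
    intro D hD u
    apply Units.ext
    have h1 : (χ ^ D) (u : ZMod (m * n)) = (1 : DirichletCharacter ℂ (m * n)) u := by
      rw [hD]
    rw [MulChar.pow_apply_coe, MulChar.one_apply_coe] at h1
    simpa using h1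
  refine ⟨MulChar.ofUnitHom f₁, MulChar.ofUnitHom f₂, ?_, ?_⟩
  · intro x
    by_cases hx : x.Coprime (m * n)
    · have hxm : x.Coprime m := Nat.Coprime.coprime_mul_right_right hx
      have hxn : x.Coprime n := Nat.Coprime.coprime_mul_left_right hx
      set u : (ZMod (m * n))ˣ := ZMod.unitOfCoprime x hx with hu
      set a : (ZMod m)ˣ := ZMod.unitOfCoprime x hxm with ha
      set b : (ZMod n)ˣ := ZMod.unitOfCoprime x hxn with hb
      have heu : e u = (a, b) := by
        have h1 : (ZMod.chineseRemainder h) (x : ZMod (m * n)) = ((x : ZMod m), (x : ZMod n)) := by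
          rw [map_natCast]
          rfl
        apply Prod.ext
        · apply Units.ext
          show ((ZMod.chineseRemainder h) (u : ZMod (m * n))).1 = (a : ZMod m)
          rw [hu, ha, ZMod.coe_unitOfCoprime, ZMod.coe_unitOfCoprime, h1]
        · apply Units.ext
          show ((ZMod.chineseRemainder h) (u : ZMod (m * n))).2 = (b : ZMod n)
          rw [hu, hb, ZMod.coe_unitOfCoprime, ZMod.coe_unitOfCoprime, h1]
      have hue : u = e.symm (a, 1) * e.symm (1, b) := by
        rw [← map_mul]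
        have : ((a, 1) : (ZMod m)ˣ × (ZMod n)ˣ) * (1, b) = (a, b) := by simp
        rw [this, ← heu]
        simp
      have h3 : χ.toUnitHom u = f₁ a * f₂ b := by
        rw [hue, map_mul]
        rfl
      have h4 : χ (x : ZMod (m * n)) = ((χ.toUnitHom u : ℂˣ) : ℂ) := by
        rw [MulChar.coe_toUnitHom, hu, ZMod.coe_unitOfCoprime]
      have h5 : (MulChar.ofUnitHom f₁) (x : ZMod m) = ((f₁ a : ℂˣ) : ℂ) := by
        rw [← MulChar.ofUnitHom_coe, ha, ZMod.coe_unitOfCoprime]
      have h6 : (MulChar.ofUnitHom f₂) (x : ZMod n) = ((f₂ b : ℂˣ) : ℂ) := by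
        rw [← MulChar.ofUnitHom_coe, hb, ZMod.coe_unitOfCoprime]
      rw [h4, h5, h6, h3, Units.val_mul]
    · have h0 : χ (x : ZMod (m * n)) = 0 := by
        apply MulChar.map_nonunit
        rw [ZMod.isUnit_iff_coprime]
        exact hx
      rw [h0]
      rw [Nat.coprime_mul_iff_right] at hx
      by_cases hxm : x.Coprime m
      · have hxn : ¬ x.Coprime n := fun hh => hx ⟨hxm, hh⟩
        have : (MulChar.ofUnitHom f₂) (x : ZMod n) = 0 := by
          apply MulChar.map_nonunit
          rw [ZMod.isUnit_iff_coprime]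
          exact hxn
        rw [this, mul_zero]
      · have : (MulChar.ofUnitHom f₁) (x : ZMod m) = 0 := by
          apply MulChar.map_nonunit
          rw [ZMod.isUnit_iff_coprime]
          exact hxm
        rw [this, zero_mul]
  · intro D hDD
    exact ⟨hD m f₁ D (fun a => hχD D hDD _), hD n f₂ D (fun a => hχD D hDD _)⟩

/-- If `χ (x) = 1` for every natural number `x` prime to `q` with `x ≡ 1` modulo `d`, then the
conductor of `χ` is at most `d`. -/
theorem conductor_le_of_one {q d : ℕ} [NeZero q] (hd : d ∣ q) (χ : DirichletCharacter ℂ q)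
    (h : ∀ x : ℕ, x.Coprime q → (x : ZMod d) = 1 → χ (x : ZMod q) = 1) :
    χ.conductor ≤ d := by
  have hf : χ.FactorsThrough d := by
    rw [factorsThrough_iff_ker_unitsMap hd]
    intro u hu
    rw [MonoidHom.mem_ker] at hu ⊢
    apply Units.ext
    have hval : (((u : ZMod q).val : ℕ) : ZMod q) = (u : ZMod q) := ZMod.natCast_zmod_val _
    have hcop : ((u : ZMod q).val).Coprime q := ZMod.val_coe_unit_coprime u
    have h1 : (((u : ZMod q).val : ℕ) : ZMod d) = 1 := by
      have h2 := congrArg (fun w : (ZMod d)ˣ => (w : ZMod d)) hu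
      simp only [ZMod.unitsMap_val, Units.val_one] at h2
      rw [ZMod.natCast_val]
      exact h2
    have h3 := h _ hcop h1
    rw [hval] at h3
    rw [MulChar.coe_toUnitHom, h3, Units.val_one]
  exact Nat.sInf_le hf

/-- Coprime factors: the factor characters, the orders and primitivity. -/
theorem split {m n : ℕ} (hm : m ≠ 0) (hn : n ≠ 0) (h : m.Coprime n)
    (χ : DirichletCharacter ℂ (m * n)) :
    ∃ (χ₁ : DirichletCharacter ℂ m) (χ₂ : DirichletCharacter ℂ n),
      (∀ x : ℕ, χ (x : ZMod (m * n)) = χ₁ (x : ZMod m) * χ₂ (x : ZMod n)) ∧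
      (∀ D : ℕ, χ ^ D = 1 → χ₁ ^ D = 1 ∧ χ₂ ^ D = 1) ∧
      (χ.IsPrimitive → χ₁.IsPrimitive ∧ χ₂.IsPrimitive) := by
  obtain ⟨χ₁, χ₂, h1, h2⟩ := split_aux h χ
  have : NeZero m := ⟨hm⟩
  have : NeZero n := ⟨hn⟩
  have : NeZero (m * n) := ⟨Nat.mul_ne_zero hm hn⟩
  refine ⟨χ₁, χ₂, h1, h2, ?_⟩
  intro hp
  have key : ∀ (k d : ℕ) [NeZero k] (ψ : DirichletCharacter ℂ k), ψ.FactorsThrough d →
      ∀ x : ℕ, x.Coprime k → (x : ZMod d) = 1 → ψ (x : ZMod k) = 1 := by
    intro k d _ ψ hψ x hx hx1
    have hker := (factorsThrough_iff_ker_unitsMap hψ.dvd).1 hψ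
    have hmem : ZMod.unitOfCoprime x hx ∈ (ZMod.unitsMap hψ.dvd).ker := by
      rw [MonoidHom.mem_ker]
      apply Units.ext
      rw [ZMod.unitsMap_val, ZMod.coe_unitOfCoprime, Units.val_one, ZMod.cast_natCast hψ.dvd, hx1]
    have h5 := hker hmem
    rw [MonoidHom.mem_ker] at h5
    have h6 := congrArg (fun w : ℂˣ => (w : ℂ)) h5
    simp only [MulChar.coe_toUnitHom, ZMod.coe_unitOfCoprime, Units.val_one] at h6
    exact h6
  have onen : ∀ (a b x : ℕ), (x : ZMod (a * b)) = 1 → (x : ZMod a) = 1 ∧ (x : ZMod b) = 1 := by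
    intro a b x hx
    have h7 : ((x : ℕ) : ZMod (a * b)) = ((1 : ℕ) : ZMod (a * b)) := by simpa using hx
    rw [ZMod.natCast_eq_natCast_iff] at h7
    constructor
    · have := h7.of_mul_right b
      have h8 := (ZMod.natCast_eq_natCast_iff _ _ _).2 this
      simpa using h8
    · have := h7.of_mul_left a
      have h8 := (ZMod.natCast_eq_natCast_iff _ _ _).2 this
      simpa using h8
  constructor
  · have hle : χ.conductor ≤ χ₁.conductor * n := by
      apply conductor_le_of_one (Nat.mul_dvd_mul_right (conductor_dvd_level χ₁) n)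
      intro x hx hx1
      have hxm : x.Coprime m := Nat.Coprime.coprime_mul_right_right hx
      obtain ⟨ha, hb⟩ := onen _ _ x hx1
      rw [h1, hb, map_one, mul_one]
      exact key m _ χ₁ (factorsThrough_conductor χ₁) x hxm ha
    have hpe : χ.conductor = m * n := hp
    rw [hpe] at hle
    have h9 : m ≤ χ₁.conductor := Nat.le_of_mul_le_mul_right hle (Nat.pos_of_ne_zero hn)
    exact le_antisymm (Nat.le_of_dvd (Nat.pos_of_ne_zero hm) (conductor_dvd_level χ₁)) h9
  · have hle : χ.conductor ≤ m * χ₂.conductor := by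
      apply conductor_le_of_one (Nat.mul_dvd_mul_left m (conductor_dvd_level χ₂))
      intro x hx hx1
      have hxn : x.Coprime n := Nat.Coprime.coprime_mul_left_right hx
      obtain ⟨ha, hb⟩ := onen _ _ x hx1
      rw [h1, ha, map_one, one_mul]
      exact key n _ χ₂ (factorsThrough_conductor χ₂) x hxn hb
    have hpe : χ.conductor = m * n := hp
    rw [hpe] at hle
    have h9 : n ≤ χ₂.conductor := Nat.le_of_mul_le_mul_left hle (Nat.pos_of_ne_zero hm)
    exact le_antisymm (Nat.le_of_dvd (Nat.pos_of_ne_zero hn) (conductor_dvd_level χ₂)) h9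

/-- The components of a character of squarefree modulus, without the primitivity clause. -/
theorem comps_aux : ∀ q : ℕ, Squarefree q → ∀ χ : DirichletCharacter ℂ q,
    ∃ c : (p : ℕ) → DirichletCharacter ℂ p,
      (∀ n : ℕ, χ (n : ZMod q) = ∏ p ∈ q.primeFactors, c p (n : ZMod p)) ∧
      (∀ p, p ∉ q.primeFactors → c p = 1) ∧
      (∀ D : ℕ, χ ^ D = 1 → ∀ p, (c p) ^ D = 1) := by
  intro q
  induction q using Nat.strong_induction_on with
  | _ q ih =>
    intro hq χ
    have hq0 : q ≠ 0 := hq.ne_zero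
    by_cases h1 : q = 1
    · subst h1
      refine ⟨fun p => 1, ?_, fun p _ => rfl, fun D _ p => one_pow D⟩
      intro n
      have : (n : ZMod 1) = 1 := Subsingleton.elim _ _
      rw [this]
      simp
    · obtain ⟨p, hp, u, rfl⟩ : ∃ p, p.Prime ∧ p ∣ q := Nat.exists_prime_and_dvd h1
      have hcop : p.Coprime u := Nat.coprime_of_squarefree_mul hq
      have hu0 : u ≠ 0 := fun h => hq0 (by rw [h, mul_zero])
      have hlt : u < p * u := by
        have := hp.two_le
        have h2 : 0 < u := Nat.pos_of_ne_zero hu0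
        nlinarith
      obtain ⟨χ₁, χ₂, hs1, hs2⟩ := split_aux hcop χ
      obtain ⟨c, hc1, hc2, hc3⟩ := ih u hlt (Squarefree.of_mul_right hq) χ₂
      have hpf : (p * u).primeFactors = insert p u.primeFactors := by
        rw [Nat.primeFactors_mul hp.ne_zero hu0, hp.primeFactors]
        rfl
      have hpn : p ∉ u.primeFactors := by
        intro hmem
        have := Nat.dvd_of_mem_primeFactors hmem
        have h3 : p ∣ Nat.gcd p u := Nat.dvd_gcd dvd_rfl this
        rw [hcop] at h3
        exact hp.one_lt.ne' (Nat.dvd_one.1 h3)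
      refine ⟨Function.update c p χ₁, ?_, ?_, ?_⟩
      · intro n
        rw [hs1, hpf, Finset.prod_insert hpn, Function.update_self, hc1]
        congr 1
        apply Finset.prod_congr rfl
        intro r hr
        have hrne : r ≠ p := by
          intro hh
          rw [hh] at hr
          exact hpn hr
        rw [Function.update_of_ne hrne]
      · intro r hr
        rw [hpf, Finset.mem_insert, not_or] at hr
        rw [Function.update_of_ne hr.1]
        exact hc2 r hr.2
      · intro D hD r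
        obtain ⟨ha, hb⟩ := hs2 D hD
        by_cases hr : r = p
        · subst hr
          rw [Function.update_self]
          exact ha
        · rw [Function.update_of_ne hr]
          exact hc3 D hb r

/-- The components of a character of squarefree modulus. -/
theorem comps {q : ℕ} (hq : Squarefree q) (χ : DirichletCharacter ℂ q) :
    ∃ c : (p : ℕ) → DirichletCharacter ℂ p,
      (∀ n : ℕ, χ (n : ZMod q) = ∏ p ∈ q.primeFactors, c p (n : ZMod p)) ∧
      (∀ p, p ∉ q.primeFactors → c p = 1) ∧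
      (∀ D : ℕ, χ ^ D = 1 → ∀ p, (c p) ^ D = 1) ∧
      (χ.IsPrimitive → ∀ p ∈ q.primeFactors, c p ≠ 1) := by
  obtain ⟨c, h1, h2, h3⟩ := comps_aux q hq χ
  refine ⟨c, h1, h2, h3, ?_⟩
  intro hprim p hp hcp
  have hpp : p.Prime := Nat.prime_of_mem_primeFactors hp
  obtain ⟨u, rfl⟩ := Nat.dvd_of_mem_primeFactors hp
  have hq0 : p * u ≠ 0 := hq.ne_zero
  have : NeZero (p * u) := ⟨hq0⟩
  have hcop : p.Coprime u := Nat.coprime_of_squarefree_mul hq
  have hu0 : u ≠ 0 := fun h => hq0 (by rw [h, mul_zero])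
  have hle : χ.conductor ≤ u := by
    apply conductor_le_of_one (Dvd.intro_left p rfl)
    intro x hx hx1
    rw [h1]
    apply Finset.prod_eq_one
    intro r hr
    have hrp : r.Prime := Nat.prime_of_mem_primeFactors hr
    by_cases hrr : r = p
    · subst hrr
      rw [hcp]
      have hxr : x.Coprime r := Nat.Coprime.coprime_mul_right_right hx
      have := MulChar.one_apply_coe (R' := ℂ) (ZMod.unitOfCoprime x hxr)
      rw [ZMod.coe_unitOfCoprime] at this
      exact this
    · have hru : r ∣ u := by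
        have h4 : r ∣ p * u := Nat.dvd_of_mem_primeFactors hr
        rcases (Nat.Prime.dvd_mul hrp).1 h4 with h5 | h5
        · exact absurd ((Nat.prime_dvd_prime_iff_eq hrp hpp).1 h5) hrr
        · exact h5
      have hx2 : (x : ZMod r) = 1 := by
        have h7 : ((x : ℕ) : ZMod u) = ((1 : ℕ) : ZMod u) := by simpa using hx1
        rw [ZMod.natCast_eq_natCast_iff] at h7
        have h8 := (ZMod.natCast_eq_natCast_iff _ _ _).2 (h7.of_dvd hru)
        simpa using h8
      rw [hx2, map_one]
  have hpe : χ.conductor = p * u := hprim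
  rw [hpe] at hle
  have h2 : 0 < u := Nat.pos_of_ne_zero hu0
  have := hpp.two_le
  nlinarith

end Pool.Agent.H75.QT
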