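import Mathlib

set_option autoImplicit false

namespace Pool.Agent.H75.QT

open DirichletCharacter

/-- The quotient of two Dirichlet characters agrees, on the integers prime to both moduli, with
a primitive character whose modulus divides the product. -/
theorem quotient {q q' : ℕ} (hq : q ≠ 0) (hq' : q' ≠ 0) (χ : DirichletCharacter ℂ q)
    (χ' : DirichletCharacter ℂ q') :
    ∃ f : ℕ, f ∣ q * q' ∧ ∃ ψ : DirichletCharacter ℂ f, ψ.IsPrimitive ∧
      ∀ n : ℕ, n.Coprime (q * q') →
        χ (n : ZMod q) * (starRingEnd ℂ) (χ' (n : ZMod q')) = ψ (n : ZMod f) := by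
  have : NeZero q := ⟨hq⟩
  have : NeZero q' := ⟨hq'⟩
  have : NeZero (q * q') := ⟨Nat.mul_ne_zero hq hq'⟩
  let ξ : DirichletCharacter ℂ (q * q') :=
    changeLevel (Nat.dvd_mul_right q q') χ * (changeLevel (Nat.dvd_mul_left q' q) χ')⁻¹
  refine ⟨ξ.conductor, conductor_dvd_level ξ, ξ.primitiveCharacter,
    primitiveCharacter_isPrimitive ξ, ?_⟩
  intro n hn
  have hco : IsCoprime ((n : ℕ) : ℤ) ((q * q' : ℕ) : ℤ) := Nat.isCoprime_iff_coprime.2 hn
  have h1 := primitiveCharacter_apply_of_isCoprime ξ hco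
  have h2 := changeLevel_eq_cast_of_dvd' χ (Nat.dvd_mul_right q q') hco
  have h3 := changeLevel_eq_cast_of_dvd' χ' (Nat.dvd_mul_left q' q) hco
  simp only [Int.cast_natCast] at h1 h2 h3
  rw [h1]
  show _ = (changeLevel (Nat.dvd_mul_right q q') χ *
    (changeLevel (Nat.dvd_mul_left q' q) χ')⁻¹) _
  rw [MulChar.mul_apply, h2, ← MulChar.star_apply', h3]
  rfl

end Pool.Agent.H75.QT
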