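import Mathlib
import Pool.Agent.H18.QT.Gen

/-!
# [H75 QT Two] words for two primes at once (for MP_0c9a68, helper37)

`crt_sum`: complete sums modulo `p p'` of a product factor. `word2`: a word in a product of two character products
of coprime prime moduli.
-/

set_option autoImplicit false

namespace Pool.H75.QT

open Finset Pool.H2.EL Pool.Agent.H18.QT

/-- the Chinese remainder theorem for a sum -/
theorem crt_sum {p p' : ℕ} [NeZero p] [NeZero p'] (h : p.Coprime p') (a : ZMod p → ℂ) (b : ZMod p' → ℂ) :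
    ∑ s ∈ range (p * p'), a (s : ZMod p) * b (s : ZMod p') = (∑ y, a y) * ∑ y, b y := by
  classical
  haveI : NeZero (p * p') := ⟨mul_ne_zero (NeZero.ne p) (NeZero.ne p')⟩
  have hc : ∀ s : ℕ, ZMod.chineseRemainder h ((s : ℕ) : ZMod (p * p')) = ((s : ZMod p), (s : ZMod p')) := by
    intro s
    rw [map_natCast]
    rfl
  rw [Finset.sum_mul_sum, ← Finset.sum_product']
  refine sum_nbij' (fun s : ℕ => ((s : ZMod p), (s : ZMod p')))
    (fun y : ZMod p × ZMod p' => ((ZMod.chineseRemainder h).symm y).val)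
    (fun _ _ => by simp) (fun y _ => mem_range.2 (ZMod.val_lt _)) (fun s hs => ?_) (fun y _ => ?_)
    (fun s _ => rfl)
  · have e1 : (ZMod.chineseRemainder h).symm ((s : ZMod p), (s : ZMod p')) = ((s : ℕ) : ZMod (p * p')) := by
      rw [← hc s, RingEquiv.symm_apply_apply]
    show ((ZMod.chineseRemainder h).symm ((s : ZMod p), (s : ZMod p'))).val = s
    rw [e1]
    exact ZMod.val_cast_of_lt (mem_range.1 hs)
  · have e1 := hc ((ZMod.chineseRemainder h).symm y).val
    rw [ZMod.natCast_zmod_val, RingEquiv.apply_symm_apply] at e1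
    exact e1.symm

/-- one word, two primes -/
theorem word2 {p p' : ℕ} [Fact p.Prime] [Fact p'.Prime] (hpp : p ≠ p') {χ : DirichletCharacter ℂ p}
    {χ' : DirichletCharacter ℂ p'} {r k M R : ℕ} {B B' : ℝ} (hW : WB χ R B) (hW' : WB χ' R B')
    (hR : 2 * k * r ≤ R) (hr : 1 ≤ r) (c c' : Fin r → Bool) (α γ : Fin r → ZMod p)
    (α' γ' : Fin r → ZMod p') (hα : ∀ l, α l ≠ 0) (hα' : ∀ l, α' l ≠ 0) (U : ℕ)
    (hinj : ∀ (l l' : Fin r) (n n' : Fin M), -γ l / α l - (U : ZMod p) * ((n : ℕ) : ZMod p) =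
      -γ l' / α l' - (U : ZMod p) * ((n' : ℕ) : ZMod p) → l = l' ∧ n = n')
    (hinj' : ∀ (l l' : Fin r) (n n' : Fin M), -γ' l / α' l - (U : ZMod p') * ((n : ℕ) : ZMod p') =
      -γ' l' / α' l' - (U : ZMod p') * ((n' : ℕ) : ZMod p') → l = l' ∧ n = n')
    (ν : Fin k × Bool → Fin M) (n : Fin M) (hn : (univ.filter fun i => ν i = n).card = 1) :
    ‖∑ s ∈ range (p * p'), ∏ z, cj z.2 (gg χ c α γ ((s + U * (ν z : ℕ) : ℕ) : ZMod p) *
      gg χ' c' α' γ' ((s + U * (ν z : ℕ) : ℕ) : ZMod p'))‖ ≤ B * B' := by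
  classical
  have hcop : p.Coprime p' := (Nat.coprime_primes (Fact.out : p.Prime) (Fact.out : p'.Prime)).2 hpp
  have h1 : ∑ s ∈ range (p * p'), ∏ z : Fin k × Bool, cj z.2 (gg χ c α γ ((s + U * (ν z : ℕ) : ℕ) : ZMod p) *
      gg χ' c' α' γ' ((s + U * (ν z : ℕ) : ℕ) : ZMod p')) =
      (∑ y : ZMod p, ∏ z : Fin k × Bool, cj z.2 (gg χ c α γ (y + U * ((ν z : ℕ) : ZMod p)))) *
      ∑ y : ZMod p', ∏ z : Fin k × Bool, cj z.2 (gg χ' c' α' γ' (y + U * ((ν z : ℕ) : ZMod p'))) := by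
    rw [← crt_sum hcop]
    refine sum_congr rfl fun s _ => ?_
    rw [← prod_mul_distrib]
    refine prod_congr rfl fun z _ => ?_
    rw [cj_mul']
    push_cast
    rfl
  rw [h1, norm_mul]
  have h2 := word hW hR c α γ hα U hinj hr ν n hn
  have h3 := word hW' hR c' α' γ' hα' U hinj' hr ν n hn
  exact mul_le_mul h2 h3 (norm_nonneg _) ((norm_nonneg _).trans h2)

end Pool.H75.QT
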