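import Mathlib

/-!
# [H75 QT Blo] sums with a slowly varying weight (for MP_0c9a68, helper37)

`blocks`: if the sums of `F` over the blocks of length `L` are small and `Φ` varies slowly, then the sums of `F Φ` over the initial
segments of `0, ..., N - 1` are at most `η N`.
-/

set_option autoImplicit false

namespace Pool.H75.QT

open Finset

/-- splitting in blocks -/
private lemma split_blocks (G : ℕ → ℂ) (L B : ℕ) :
    ∑ t ∈ range (B * L), G t = ∑ b ∈ range B, ∑ s ∈ range L, G (b * L + s) := by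
  induction B with
  | zero => simp
  | succ B ih =>
    rw [Nat.succ_mul, sum_range_add, ih, sum_range_succ]

theorem blocks {L N : ℕ} (hL : 0 < L) (F Φ : ℕ → ℂ) (hF : ∀ t, ‖F t‖ ≤ 1) (hΦ : ∀ t, ‖Φ t‖ ≤ 1)
    {η κ : ℝ} (hη : 0 < η) (hη1 : η ≤ 1) (hκ0 : 0 ≤ κ)
    (hblock : ∀ b : ℕ, ‖∑ s ∈ range L, F (b * L + s)‖ ≤ η / 4 * L)
    (hslow : ∀ t s : ℕ, 1 ≤ t → ‖Φ (t + s) - Φ t‖ ≤ κ * (s / t))
    (hκ : κ * L ≤ η ^ 2 / 32 * N) (hLN : (L : ℝ) ≤ η / 8 * N) (x : ℕ) (hx : x ≤ N) :
    ‖∑ t ∈ range x, F t * Φ t‖ ≤ η * N := by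
  classical
  have hL0 : (0 : ℝ) < L := by exact_mod_cast hL
  have hN0 : (0 : ℝ) < N := by
    by_contra hcon
    push Not at hcon
    have : η / 8 * N ≤ 0 := mul_nonpos_of_nonneg_of_nonpos (by positivity) hcon
    linarith
  have htriv : ∀ t, ‖F t * Φ t‖ ≤ 1 := by
    intro t
    rw [norm_mul]
    exact mul_le_one₀ (hF t) (norm_nonneg _) (hΦ t)
  have htrivs : ∀ (m c : ℕ), ‖∑ s ∈ range m, F (c + s) * Φ (c + s)‖ ≤ m := by
    intro m c
    refine (norm_sum_le _ _).trans ((sum_le_sum fun s _ => htriv (c + s)).trans ?_)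
    rw [sum_const, card_range, nsmul_eq_mul, mul_one]
  obtain ⟨T, hT⟩ : ∃ T : ℝ, T = η / 4 * N := ⟨_, rfl⟩
  have hT0 : 0 < T := by
    rw [hT]
    positivity
  -- a late block
  have hlate : ∀ b : ℕ, T ≤ (b : ℝ) * L →
      ‖∑ s ∈ range L, F (b * L + s) * Φ (b * L + s)‖ ≤ 3 * η / 8 * L := by
    intro b hb
    have hbL : (0 : ℝ) < (b : ℝ) * L := lt_of_lt_of_le hT0 hb
    have hbL1 : 1 ≤ b * L := by
      have : (0 : ℝ) < ((b * L : ℕ) : ℝ) := by
        push_cast
        exact hbL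
      exact_mod_cast this
    have e1 : ∑ s ∈ range L, F (b * L + s) * Φ (b * L + s) =
        (∑ s ∈ range L, F (b * L + s)) * Φ (b * L) +
          ∑ s ∈ range L, F (b * L + s) * (Φ (b * L + s) - Φ (b * L)) := by
      rw [sum_mul, ← sum_add_distrib]
      refine sum_congr rfl fun s _ => ?_
      ring
    rw [e1]
    have e2 : ‖(∑ s ∈ range L, F (b * L + s)) * Φ (b * L)‖ ≤ η / 4 * L := by
      rw [norm_mul]
      calc ‖∑ s ∈ range L, F (b * L + s)‖ * ‖Φ (b * L)‖ ≤ (η / 4 * L) * 1 :=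
            mul_le_mul (hblock b) (hΦ _) (norm_nonneg _) (by positivity)
        _ = η / 4 * L := mul_one _
    have e3 : ∀ s ∈ range L, ‖F (b * L + s) * (Φ (b * L + s) - Φ (b * L))‖ ≤ η / 8 := by
      intro s hs
      rw [norm_mul]
      have f1 := hslow (b * L) s hbL1
      have f2 : ‖Φ (b * L + s) - Φ (b * L)‖ ≤ η / 8 := by
        refine f1.trans ?_
        have f3 : ((b * L : ℕ) : ℝ) = (b : ℝ) * L := by push_cast; rfl
        rw [f3, ← mul_div_assoc, div_le_iff₀ hbL]
        have f4 : (s : ℝ) ≤ L := by exact_mod_cast (mem_range.1 hs).le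
        have f5 : κ * s ≤ κ * L := mul_le_mul_of_nonneg_left f4 hκ0
        have f6 : η / 8 * T ≤ η / 8 * ((b : ℝ) * L) := mul_le_mul_of_nonneg_left hb (by positivity)
        have f7 : η / 8 * T = η ^ 2 / 32 * N := by
          rw [hT]
          ring
        linarith
      calc ‖F (b * L + s)‖ * ‖Φ (b * L + s) - Φ (b * L)‖ ≤ 1 * (η / 8) :=
            mul_le_mul (hF _) f2 (norm_nonneg _) zero_le_one
        _ = η / 8 := one_mul _
    have e4 : ‖∑ s ∈ range L, F (b * L + s) * (Φ (b * L + s) - Φ (b * L))‖ ≤ L * (η / 8) := by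
      refine (norm_sum_le _ _).trans ((sum_le_sum e3).trans ?_)
      rw [sum_const, card_range, nsmul_eq_mul]
    refine (norm_add_le _ _).trans ?_
    linarith
  -- all blocks
  have hall : ∀ b : ℕ, ‖∑ s ∈ range L, F (b * L + s) * Φ (b * L + s)‖ ≤
      3 * η / 8 * L + (if (b : ℝ) * L < T then (L : ℝ) else 0) := by
    intro b
    split_ifs with h
    · have := htrivs L (b * L)
      have : 0 ≤ 3 * η / 8 * L := by positivity
      linarith
    · rw [add_zero]
      exact hlate b (not_lt.1 h)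
  have hcount : ∀ B : ℕ, ∑ b ∈ range B, (if (b : ℝ) * L < T then (L : ℝ) else 0) ≤ T + L := by
    intro B
    rw [← sum_filter, sum_const, nsmul_eq_mul]
    have e1 : ((range B).filter fun b : ℕ => (b : ℝ) * L < T) ⊆ range ⌈T / L⌉₊ := by
      intro b hb
      rw [mem_filter] at hb
      rw [mem_range, Nat.lt_ceil, lt_div_iff₀ hL0]
      exact hb.2
    have e2 := card_le_card e1
    rw [card_range] at e2
    have e3 : (⌈T / L⌉₊ : ℝ) < T / L + 1 := Nat.ceil_lt_add_one (by positivity)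
    have e4 : ((((range B).filter fun b : ℕ => (b : ℝ) * L < T).card : ℕ) : ℝ) ≤ T / L + 1 :=
      (Nat.cast_le.2 e2).trans e3.le
    calc ((((range B).filter fun b : ℕ => (b : ℝ) * L < T).card : ℕ) : ℝ) * L ≤ (T / L + 1) * L :=
          mul_le_mul_of_nonneg_right e4 hL0.le
      _ = T + L := by field_simp
  have hx1 : x = x / L * L + x % L := by
    rw [mul_comm]
    exact (Nat.div_add_mod x L).symm
  have hsum : ∑ t ∈ range x, F t * Φ t = ∑ b ∈ range (x / L), ∑ s ∈ range L, F (b * L + s) * Φ (b * L + s) +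
      ∑ s ∈ range (x % L), F (x / L * L + s) * Φ (x / L * L + s) := by
    conv_lhs => rw [hx1]
    rw [sum_range_add, split_blocks (fun t => F t * Φ t)]
  rw [hsum]
  have h1 : ‖∑ b ∈ range (x / L), ∑ s ∈ range L, F (b * L + s) * Φ (b * L + s)‖ ≤
      3 * η / 8 * N + (T + L) := by
    refine (norm_sum_le _ _).trans ((sum_le_sum fun b _ => hall b).trans ?_)
    rw [sum_add_distrib, sum_const, card_range, nsmul_eq_mul]
    have e1 : ((x / L : ℕ) : ℝ) * L ≤ N := by
      have : x / L * L ≤ N := (Nat.div_mul_le_self x L).trans hx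
      exact_mod_cast this
    have e2 : ((x / L : ℕ) : ℝ) * (3 * η / 8 * L) = 3 * η / 8 * (((x / L : ℕ) : ℝ) * L) := by ring
    have e3 : 3 * η / 8 * (((x / L : ℕ) : ℝ) * L) ≤ 3 * η / 8 * N :=
      mul_le_mul_of_nonneg_left e1 (by positivity)
    have e4 := hcount (x / L)
    linarith
  have h2 : ‖∑ s ∈ range (x % L), F (x / L * L + s) * Φ (x / L * L + s)‖ ≤ L := by
    refine (htrivs (x % L) (x / L * L)).trans ?_
    exact_mod_cast (Nat.mod_lt x hL).le
  refine (norm_add_le _ _).trans ?_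
  have h3 : 0 < η * N := by positivity
  rw [hT] at h1
  nlinarith

end Pool.H75.QT
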